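import Pool.Agent.Helper192.Syn.C2
import Pool.Agent.Helper192.Syn.R

set_option autoImplicit false

open Filter Topology
open Pool.Agent.Helper192.Syn

namespace Pool.Agent.Results.MP_ce3242_an.Synthesis

/-- The space `E_Ω` of the Laplace transforms of the analytic functionals on `Ω`. -/
def E {n : ℕ} (Ω : Set (Cn n)) : Type := {φ : Cn n → ℂ // ∃ T : Hol Ω →L[ℂ] ℂ, laplace T = φ}

/-- The Laplace transform as a map from the dual `H'(Ω)` onto `E_Ω`. -/
noncomputable def transform {n : ℕ} (Ω : Set (Cn n)) (T : Hol Ω →L[ℂ] ℂ) : E Ω :=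
  ⟨laplace T, T, rfl⟩

/-- The topology of `E_Ω`, transported from the strong dual topology of `H'(Ω)`. -/
noncomputable instance {n : ℕ} (Ω : Set (Cn n)) : TopologicalSpace (E Ω) :=
  TopologicalSpace.coinduced (transform Ω) inferInstance

/-- With this topology the Laplace transform is a homeomorphism of `H'(Ω)` onto `E_Ω`. -/
theorem transform_isHomeomorph {n : ℕ} (Ω : Set (Cn n)) (hΩ : IsOpen Ω) (hc : Convex ℝ Ω) :
    IsHomeomorph (transform Ω) := by
  have hinj : Function.Injective (transform Ω) := by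
    intro S T h
    exact laplace_injective Ω hΩ hc (congrArg Subtype.val h)
  have hsurj : Function.Surjective (transform Ω) := by
    rintro ⟨φ, T, hT⟩
    exact ⟨T, Subtype.ext hT⟩
  refine ⟨continuous_coinduced_rng, ?_, hinj, hsurj⟩
  intro U hU
  rw [isOpen_coinduced, Set.preimage_image_eq U hinj]
  exact hU

/-- Every holomorphic function on the open set `Ω` is an element of `Hol Ω`. -/
theorem exists_hol {n : ℕ} (Ω : Set (Cn n)) (F : Cn n → ℂ) (hF : DifferentiableOn ℂ F Ω) :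
    ∃ f : Hol Ω, ∀ z : Ω, f.at z = F z := by
  have hc : Continuous (fun z : Ω => F z) := continuousOn_iff_continuous_domRestrict.mp hF.continuousOn
  refine ⟨⟨⟨fun z : Ω => F z, hc⟩, ?_⟩, fun z => rfl⟩
  change DifferentiableOn ℂ _ Ω
  refine hF.congr ?_
  intro z hz
  simp [ext0, hz]

/-- For every convex domain `Ω ⊂ ℂ^n`, `n ≥ 2`, and all `φ, ψ ∈ E_Ω` with `φ` not identically zero and
`ψ / φ` entire there are polynomials `P_k` with `φ P_k → ψ` in `E_Ω`. -/
theorem result (n : ℕ) (hn : 2 ≤ n) (Ω : Set (Cn n)) (hΩ : IsOpen Ω) (hc : Convex ℝ Ω)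
    (hne : Ω.Nonempty) (φ ψ : E Ω) (hφ : ∃ z, φ.1 z ≠ 0)
    (hq : ∃ g : Cn n → ℂ, Differentiable ℂ g ∧ ∀ z, ψ.1 z = φ.1 z * g z) :
    ∃ (P : ℕ → MvPolynomial (Fin n) ℂ) (χ : ℕ → E Ω),
      (∀ k z, (χ k).1 z = φ.1 z * MvPolynomial.eval z (P k)) ∧ Tendsto χ atTop (𝓝 ψ) := by
  obtain ⟨φ, S, rfl⟩ := φ
  obtain ⟨ψ, T, rfl⟩ := ψ
  obtain ⟨g, hg, hgT⟩ := hq
  obtain ⟨P, U, h1, h2⟩ := synthesis Ω hΩ hc hne S T hφ g hg hgT
  refine ⟨P, fun k => transform Ω (U k), h1, ?_⟩
  have hcont : Continuous (transform Ω) := continuous_coinduced_rng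
  exact (hcont.tendsto T).comp h2

end Pool.Agent.Results.MP_ce3242_an.Synthesis
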